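import Pool.Agent.Q211.FS.NCp2

/-!
# A zero-dimensional subspace of the real line that is not N-compact

In the basic Cohen model (generated over a countable transitive model of ZFC by an infinite set `A`
of mutually generic real numbers, without an enumeration of `A`), let `X` be the complement of `A`
in the set of the real numbers. The intervals with endpoints in `A` give a base of clopen sets.

Every continuous function `f` from `X` to the discrete space of the natural numbers is locally
constant at all the real numbers except finitely many elements of `A`: the set `D` of the
exceptions keeps away from every rational number, and a set with this property contains only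
finitely many elements of `A` (a condition that forces that `D` does not meet a neighbourhood of a
rational number in the interval of the condition for an element of `A` may be restricted to a
support of `D`). By completeness `f` has a limit from the right at every element `a` of `A`. If `X`
is embedded into a power of the discrete space of the natural numbers, then the limits from the
right at `a` of the coordinates define a point in the closure of the image that is not in the
image, so the image is not closed.
-/

set_option autoImplicit false

namespace Pool.Agent.Results.MP_1eff47_lc.NotNCompact

open Pool.Agent.W868 Pool.Agent.W868.PName Pool.Agent.Q211.SY Pool.Agent.Q211.FS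

/-- There is a countable transitive model of ZF in which some zero-dimensional subspace of the real
line is not homeomorphic to a closed subspace of a power of the discrete space of the natural
numbers. -/
theorem result : ∃ M : Set ZFSet.{0}, M.Countable ∧ IsZF M ∧
    ∃ X ∈ M, ∃ τ ∈ M, IsRealSet X ∧ IsUsualTop M X τ ∧ ZeroDim X τ ∧ ¬ NCompactIn M X τ := by
  obtain ⟨π, h⟩ := exists_CM ∅ Set.countable_empty
  have hM := h.isZF
  have hB := hM.base
  have hQM := h.Qc_mem
  have hLM := h.LQ_mem
  have hA := h.A_mem
  obtain ⟨R, hR, h1⟩ := exists_reals hM hQM hLM
  have hXM : ZFSet.sep (fun z => z ∉ π.val An) R ∈ SC.Ms π :=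
    hM.sep_mem (Q := fun z => z ∉ π.val An)
      (Dfn.not (Dfn.mem (DfnF.proj 0) (DfnF.const hA))) hR
  have hX : IsCompl (SC.Ms π) (π.val An) (ZFSet.sep (fun z => z ∉ π.val An) R) := by
    intro z
    rw [ZFSet.mem_sep, h1, and_assoc]
  obtain ⟨τ, hτM, hτ⟩ := exists_top hM hQM hLM hXM (compl_real h hX)
  exact ⟨_, (π.cnt.mono fun _ hx => hx.1).image _, hM, _, hXM, τ, hτM, compl_real h hX, hτ,
    compl_zeroDim h hX hXM hτM hτ, compl_not_ncompact h hX hXM hτM hτ⟩

end Pool.Agent.Results.MP_1eff47_lc.NotNCompact
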